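import Pool.Agent.N556.CQ.Stm

set_option autoImplicit false

namespace Pool.Agent.N283.CQ

open Pool.Agent.N556.CQ MeasureTheory Set

/-- positive continuous functions on a compact set are bounded below -/
theorem low {K : Set P} (hK : IsCompact K) (g : P → ℝ) (hg : Continuous g)
    (h : ∀ x ∈ K, 0 < g x) (M : ℝ) (hM : 0 < M) : ∃ ε : ℝ, 0 < ε ∧ ε ≤ M ∧ ∀ x ∈ K, ε ≤ g x := by
  rcases K.eq_empty_or_nonempty with rfl | hne
  · exact ⟨M, hM, le_rfl, fun x hx => absurd hx (Set.notMem_empty x)⟩
  · obtain ⟨x₀, hx₀, hmin⟩ := hK.exists_isMinOn hne hg.continuousOn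
    refine ⟨min M (g x₀), lt_min hM (h x₀ hx₀), min_le_left _ _, fun x hx => ?_⟩
    exact (min_le_right _ _).trans (hmin hx)

theorem tilt {K : Set P} (hK : IsCompact K) (α γ : P → ℝ) (hα : Continuous α) (hγ : Continuous γ)
    (D : ℝ) (hD : 0 < D) (h1 : ∀ x ∈ K, α x ≤ D) (h2 : ∀ x ∈ K, |γ x| ≤ D)
    (h3 : ∀ x ∈ K, α x = D → 0 < γ x) : ∃ m ε : ℝ, 0 < m ∧ m ≤ 1 / 2 ∧ 0 < ε ∧ ε ≤ D / 2 ∧
      ∀ x ∈ K, α x ≤ D - ε + m * γ x := by
  have hK0 : IsCompact (K ∩ {x | γ x ≤ 0}) := hK.inter_right (isClosed_le hγ continuous_const)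
  obtain ⟨δ, hδ, -, hδ2⟩ := low hK0 (fun x => D - α x) (continuous_const.sub hα)
    (by
      rintro x ⟨hx, hx0⟩
      have h4 := h1 x hx
      rcases h4.lt_or_eq with h5 | h5
      · show 0 < D - α x
        linarith
      · have := h3 x hx h5
        have hx1 : γ x ≤ 0 := hx0
        linarith) 1 one_pos
  have hm0 : 0 < min (1 / 2 : ℝ) (δ / (2 * D)) := lt_min (by norm_num) (by positivity)
  have hmD : min (1 / 2 : ℝ) (δ / (2 * D)) * D ≤ δ / 2 := by
    calc min (1 / 2 : ℝ) (δ / (2 * D)) * D ≤ (δ / (2 * D)) * D :=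
          mul_le_mul_of_nonneg_right (min_le_right _ _) hD.le
      _ = δ / 2 := by field_simp
  set m : ℝ := min (1 / 2 : ℝ) (δ / (2 * D)) with hm
  obtain ⟨ε, hε, hεD, hε2⟩ := low hK (fun x => D + m * γ x - α x)
    ((continuous_const.add (continuous_const.mul hγ)).sub hα)
    (by
      intro x hx
      show 0 < D + m * γ x - α x
      rcases le_or_gt (γ x) 0 with h4 | h4
      · have h5 : δ ≤ D - α x := hδ2 x ⟨hx, h4⟩
        have h6 := abs_le.1 (h2 x hx)
        have h7 : -(m * D) ≤ m * γ x := by nlinarith [h6.1]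
        linarith
      · have h5 := mul_pos hm0 h4
        have h6 := h1 x hx
        linarith) (D / 2) (by linarith)
  refine ⟨m, ε, hm0, min_le_left _ _, hε, hεD, fun x hx => ?_⟩
  have h4 : ε ≤ D + m * γ x - α x := hε2 x hx
  linarith

/-- covering by a trapezoid -/
theorem trap (h : S_QUAD) (K : Set P) (o e f : P) (hD : 0 < cr e f) (u v : ℝ) (hu : -1 < u)
    (hv : -1 < v) (h1 : ∀ x ∈ K, |cr (x - o) f| ≤ cr e f ∧ |cr e (x - o)| ≤ cr e f)
    (h2 : ∀ x ∈ K, cr (x - o) f ≤ (u + v) / 2 * cr e f + (v - u) / 2 * cr e (x - o)) :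
    Cov K ((u + v + 2) * cr e f) := by
  have e1 : cr ((o + u • e - f) - (o - e - f)) ((o + v • e + f) - (o - e - f)) =
      2 * (u + 1) * cr e f := by
    simp only [cr, Prod.fst_add, Prod.snd_add, Prod.fst_sub, Prod.snd_sub, Prod.smul_fst,
      Prod.smul_snd, smul_eq_mul]
    ring
  have e2 : cr ((o + v • e + f) - (o - e - f)) ((o - e + f) - (o - e - f)) =
      2 * (v + 1) * cr e f := by
    simp only [cr, Prod.fst_add, Prod.snd_add, Prod.fst_sub, Prod.snd_sub, Prod.smul_fst,
      Prod.smul_snd, smul_eq_mul]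
    ring
  have e3 : cr ((o + u • e - f) - (o - e - f)) ((o - e + f) - (o - e - f)) =
      2 * (u + 1) * cr e f := by
    simp only [cr, Prod.fst_add, Prod.snd_add, Prod.fst_sub, Prod.snd_sub, Prod.smul_fst,
      Prod.smul_snd, smul_eq_mul]
    ring
  have e4 : cr ((o + v • e + f) - (o + u • e - f)) ((o - e + f) - (o + u • e - f)) =
      2 * (v + 1) * cr e f := by
    simp only [cr, Prod.fst_add, Prod.snd_add, Prod.fst_sub, Prod.snd_sub, Prod.smul_fst,
      Prod.smul_snd, smul_eq_mul]
    ring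
  have e5 : cr ((o + v • e + f) - (o - e - f)) ((o - e + f) - (o + u • e - f)) =
      2 * (u + v + 2) * cr e f := by
    simp only [cr, Prod.fst_add, Prod.snd_add, Prod.fst_sub, Prod.snd_sub, Prod.smul_fst,
      Prod.smul_snd, smul_eq_mul]
    ring
  obtain ⟨h3, h4⟩ := h (o - e - f) (o + u • e - f) (o + v • e + f) (o - e + f)
    (by rw [e1]; exact mul_nonneg (by linarith) hD.le)
    (by rw [e2]; exact mul_nonneg (by linarith) hD.le)
    (by rw [e3]; exact mul_nonneg (by linarith) hD.le)
    (by rw [e4]; exact mul_nonneg (by linarith) hD.le)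
    (by rw [e5]; exact mul_pos (by linarith) hD)
  refine ⟨o - e - f, o + u • e - f, o + v • e + f, o - e + f, fun x hx => ?_, ?_⟩
  · have a1 := abs_le.1 (h1 x hx).1
    have a2 := abs_le.1 (h1 x hx).2
    have a3 := h2 x hx
    refine h4 x ?_ ?_ ?_ ?_
    · have : cr ((o + u • e - f) - (o - e - f)) (x - (o - e - f)) =
          (u + 1) * (cr e (x - o) + cr e f) := by
        simp only [cr, Prod.fst_add, Prod.snd_add, Prod.fst_sub, Prod.snd_sub, Prod.smul_fst,
          Prod.smul_snd, smul_eq_mul]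
        ring
      rw [this]
      exact mul_nonneg (by linarith) (by linarith [a2.1])
    · have : cr ((o + v • e + f) - (o + u • e - f)) (x - (o + u • e - f)) =
          (v - u) * cr e (x - o) + (u + v) * cr e f - 2 * cr (x - o) f := by
        simp only [cr, Prod.fst_add, Prod.snd_add, Prod.fst_sub, Prod.snd_sub, Prod.smul_fst,
          Prod.smul_snd, smul_eq_mul]
        ring
      rw [this]
      linarith
    · have : cr ((o - e + f) - (o + v • e + f)) (x - (o + v • e + f)) =
          (v + 1) * (cr e f - cr e (x - o)) := by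
        simp only [cr, Prod.fst_add, Prod.snd_add, Prod.fst_sub, Prod.snd_sub, Prod.smul_fst,
          Prod.smul_snd, smul_eq_mul]
        ring
      rw [this]
      exact mul_nonneg (by linarith) (by linarith [a2.2])
    · have : cr ((o - e - f) - (o - e + f)) (x - (o - e + f)) =
          2 * (cr (x - o) f + cr e f) := by
        simp only [cr, Prod.fst_add, Prod.snd_add, Prod.fst_sub, Prod.snd_sub]
        ring
      rw [this]
      exact mul_nonneg (by norm_num) (by linarith [a1.1])
  · refine h3.trans (ENNReal.ofReal_le_ofReal ?_)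
    rw [e5]
    exact le_of_eq (by ring)

theorem cont1 (o f : P) : Continuous (fun x : P => cr (x - o) f) := by
  unfold cr
  fun_prop

theorem cont2 (o e : P) : Continuous (fun x : P => cr e (x - o)) := by
  unfold cr
  fun_prop

theorem one_case (h : S_QUAD) (K : Set P) (o e f : P) (hK : IsCompact K) (hc : Convex ℝ K)
    (hD : 0 < cr e f) (h1 : ∀ x ∈ K, |cr (x - o) f| ≤ cr e f ∧ |cr e (x - o)| ≤ cr e f)
    (h2 : o + e ∉ K) : ∃ s : ℝ, s < 4 * cr e f ∧ Cov K s := by
  -- no point of `K` has coordinates `(1, 0)`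
  have h3 : ∀ x ∈ K, cr (x - o) f = cr e f → cr e (x - o) ≠ 0 := by
    intro x hx ha hb
    apply h2
    have i1 : cr e f * (x - o).1 = cr (x - o) f * e.1 + cr e (x - o) * f.1 := by
      simp only [cr]; ring
    have i2 : cr e f * (x - o).2 = cr (x - o) f * e.2 + cr e (x - o) * f.2 := by
      simp only [cr]; ring
    rw [ha, hb, zero_mul, add_zero] at i1 i2
    have j1 := mul_left_cancel₀ hD.ne' i1
    have j2 := mul_left_cancel₀ hD.ne' i2
    have j3 : x - o = e := Prod.ext j1 j2
    have j4 : o + e = x := by rw [← j3]; abel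
    rw [j4]
    exact hx
  have h4 : (∀ x ∈ K, cr (x - o) f = cr e f → 0 < cr e (x - o)) ∨
      (∀ x ∈ K, cr (x - o) f = cr e f → 0 < -cr e (x - o)) := by
    by_contra hcon
    rw [not_or] at hcon
    obtain ⟨hc1, hc2⟩ := hcon
    push Not at hc1 hc2
    obtain ⟨x, hx, hxa, hxb⟩ := hc1
    obtain ⟨y, hy, hya, hyb⟩ := hc2
    have hxb' : cr e (x - o) < 0 := lt_of_le_of_ne hxb (h3 x hx hxa)
    have hyb' : 0 < cr e (y - o) := lt_of_le_of_ne (by linarith) (h3 y hy hya).symm
    set p := cr e (x - o) with hp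
    set q := cr e (y - o) with hq
    have hpq : 0 < q - p := by linarith
    have hz : (q / (q - p)) • x + (-p / (q - p)) • y ∈ K := by
      refine hc hx hy (div_nonneg hyb'.le hpq.le) (div_nonneg (by linarith) hpq.le) ?_
      field_simp
      ring
    refine h3 _ hz ?_ ?_
    · have : cr ((q / (q - p)) • x + (-p / (q - p)) • y - o) f =
          (q / (q - p)) * cr (x - o) f + (-p / (q - p)) * cr (y - o) f +
          ((q / (q - p)) + (-p / (q - p)) - 1) * cr o f := by
        simp only [cr, Prod.fst_add, Prod.snd_add, Prod.fst_sub, Prod.snd_sub, Prod.smul_fst,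
          Prod.smul_snd, smul_eq_mul]
        ring
      rw [this, hxa, hya]
      have hs : (q / (q - p)) + (-p / (q - p)) = 1 := by
        field_simp
        ring
      rw [hs, ← add_mul, hs]
      ring
    · have : cr e ((q / (q - p)) • x + (-p / (q - p)) • y - o) =
          (q / (q - p)) * cr e (x - o) + (-p / (q - p)) * cr e (y - o) +
          ((q / (q - p)) + (-p / (q - p)) - 1) * cr e o := by
        simp only [cr, Prod.fst_add, Prod.snd_add, Prod.fst_sub, Prod.snd_sub, Prod.smul_fst,
          Prod.smul_snd, smul_eq_mul]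
        ring
      rw [this, ← hp, ← hq]
      have hs : (q / (q - p)) + (-p / (q - p)) = 1 := by
        field_simp
        ring
      rw [hs]
      ring
  rcases h4 with h4 | h4
  · obtain ⟨m, ε, hm, hm2, hε, hε2, h5⟩ := tilt hK (fun x => cr (x - o) f)
      (fun x => cr e (x - o)) (cont1 o f) (cont2 o e) (cr e f) hD
      (fun x hx => (abs_le.1 (h1 x hx).1).2) (fun x hx => (h1 x hx).2) h4
    have hq : ε / cr e f ≤ 1 / 2 := by
      rw [div_le_iff₀ hD]; linarith
    have hq2 : ε / cr e f * cr e f = ε := div_mul_cancel₀ _ hD.ne'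
    refine ⟨_, ?_, trap h K o e f hD (1 - ε / cr e f - m) (1 - ε / cr e f + m) (by linarith)
      (by linarith) h1 ?_⟩
    · have : (1 - ε / cr e f - m + (1 - ε / cr e f + m) + 2) * cr e f =
          4 * cr e f - 2 * (ε / cr e f * cr e f) := by ring
      rw [this, hq2]
      linarith
    · intro x hx
      have h6 := h5 x hx
      have h7 : (1 - ε / cr e f - m + (1 - ε / cr e f + m)) / 2 * cr e f =
          cr e f - ε / cr e f * cr e f := by ring
      have h8 : (1 - ε / cr e f + m - (1 - ε / cr e f - m)) / 2 = m := by ring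
      rw [h7, h8, hq2]
      exact h6
  · obtain ⟨m, ε, hm, hm2, hε, hε2, h5⟩ := tilt hK (fun x => cr (x - o) f)
      (fun x => -cr e (x - o)) (cont1 o f) (cont2 o e).neg (cr e f) hD
      (fun x hx => (abs_le.1 (h1 x hx).1).2) (fun x hx => by
        show |-cr e (x - o)| ≤ cr e f
        rw [abs_neg]; exact (h1 x hx).2) h4
    have hq : ε / cr e f ≤ 1 / 2 := by
      rw [div_le_iff₀ hD]; linarith
    have hq2 : ε / cr e f * cr e f = ε := div_mul_cancel₀ _ hD.ne'
    refine ⟨_, ?_, trap h K o e f hD (1 - ε / cr e f + m) (1 - ε / cr e f - m) (by linarith)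
      (by linarith) h1 ?_⟩
    · have : (1 - ε / cr e f + m + (1 - ε / cr e f - m) + 2) * cr e f =
          4 * cr e f - 2 * (ε / cr e f * cr e f) := by ring
      rw [this, hq2]
      linarith
    · intro x hx
      have h6 : cr (x - o) f ≤ cr e f - ε + m * -cr e (x - o) := h5 x hx
      have h7 : (1 - ε / cr e f + m + (1 - ε / cr e f - m)) / 2 * cr e f =
          cr e f - ε / cr e f * cr e f := by ring
      have h8 : (1 - ε / cr e f - m - (1 - ε / cr e f + m)) / 2 = -m := by ring
      rw [h7, h8, hq2]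
      linarith

theorem mid (h : S_QUAD) : S_MID := by
  intro K o e f hK hc hD h1 h2
  rcases h2 with h2 | h2 | h2 | h2
  · exact one_case h K o e f hK hc hD h1 h2
  · have i0 : cr (-e) (-f) = cr e f := by
      simp only [cr, Prod.fst_neg, Prod.snd_neg]; ring
    have := one_case h K o (-e) (-f) hK hc (by rw [i0]; exact hD) (by
      intro x hx
      have i1 : cr (x - o) (-f) = -cr (x - o) f := by
        simp only [cr, Prod.fst_neg, Prod.snd_neg]; ring
      have i2 : cr (-e) (x - o) = -cr e (x - o) := by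
        simp only [cr, Prod.fst_neg, Prod.snd_neg]; ring
      rw [i0, i1, i2, abs_neg, abs_neg]
      exact h1 x hx) (by rw [← sub_eq_add_neg]; exact h2)
    rwa [i0] at this
  · have i0 : cr f (-e) = cr e f := by
      simp only [cr, Prod.fst_neg, Prod.snd_neg]; ring
    have := one_case h K o f (-e) hK hc (by rw [i0]; exact hD) (by
      intro x hx
      have i1 : cr (x - o) (-e) = cr e (x - o) := by
        simp only [cr, Prod.fst_neg, Prod.snd_neg]; ring
      have i2 : cr f (x - o) = -cr (x - o) f := by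
        simp only [cr]; ring
      rw [i0, i1, i2, abs_neg]
      exact ⟨(h1 x hx).2, (h1 x hx).1⟩) h2
    rwa [i0] at this
  · have i0 : cr (-f) e = cr e f := by
      simp only [cr, Prod.fst_neg, Prod.snd_neg]; ring
    have := one_case h K o (-f) e hK hc (by rw [i0]; exact hD) (by
      intro x hx
      have i1 : cr (x - o) e = -cr e (x - o) := by
        simp only [cr]; ring
      have i2 : cr (-f) (x - o) = cr (x - o) f := by
        simp only [cr, Prod.fst_neg, Prod.snd_neg]; ring
      rw [i0, i1, i2, abs_neg]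
      exact ⟨(h1 x hx).2, (h1 x hx).1⟩) (by rw [← sub_eq_add_neg]; exact h2)
    rwa [i0] at this

end Pool.Agent.N283.CQ
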